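import Pool.Agent.V1142.SC.Gou7

/-!
# Two abelian varieties: the joint Sato-Tate law and the common quotient

In the intended use `A` and `A'` are abelian varieties over the number field `K`, `G` and `G'` are their
Sato-Tate groups and `x_v ∈ G`, `x'_v ∈ G'` elements of the classes of the prime `v` of `K` (any elements at
the finitely many exceptional primes; this changes the `L`-functions below by finitely many factors
without zeros and poles in `Re s > 0`).  Suppose that the Sato-Tate conjecture holds for `A` and for `A'`,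
that the functions `L(π ⊗ π', s)` have meromorphic continuations to neighbourhoods of the points of the
line `Re s = 1`, and that for one-dimensional representations they have no zeros on this line and
no poles except possibly at `s = 1` (this is Hecke's theorem for the characters that occur).

Nothing is assumed about the zeros and poles of `L(π ⊗ π', s)` for the other representations, and nothing
about the Sato-Tate group of `A × A'`.  The theorem describes the joint distribution of `x_v` and `x'_v` in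
all cases, in the way in which Goursat's lemma describes the subgroups of `G × G'`: the limit
distribution of the pairs exists, the correlation of two irreducible characters is `0`, `1` or `-1`, it
is `± 1` only if the characters agree in mean square up to the sign at `x_v` and `x'_v`, and the
representations that are matched in this way are closed under tensor products and constituents, with the
same multiplicities on both sides.  If no nontrivial representations are matched with the sign `+`,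
then the pairs `(x_v, x'_v)` are equidistributed in `G × G'`.
-/

set_option autoImplicit false

namespace Pool.Agent.Results.MP_c481b3_nt.CommonQuotient

open NumberField IsDedekindDomain Filter Topology MeasureTheory
open scoped ComplexConjugate Kronecker

section

variable {K : Type} [Field K] [NumberField K]

/-- The average of `φ` over the primes of `K` of norm at most `N`. -/
noncomputable def avg (φ : HeightOneSpectrum (𝓞 K) → ℂ) (N : ℕ) : ℂ :=
  (∑ᶠ w : {w : HeightOneSpectrum (𝓞 K) // Ideal.absNorm w.asIdeal ≤ N}, φ w.1) /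
    (Nat.card {w : HeightOneSpectrum (𝓞 K) // Ideal.absNorm w.asIdeal ≤ N} : ℂ)

/-- The classes of the `x v` are equidistributed for `μ`. -/
def Equidistributed {G : Type} [Group G] [TopologicalSpace G] [MeasurableSpace G]
    (x : HeightOneSpectrum (𝓞 K) → G) (μ : Measure G) : Prop :=
  ∀ f : G → ℂ, Continuous f → (∀ g h, f (h * g * h⁻¹) = f g) →
    Tendsto (avg fun v => f (x v)) atTop (𝓝 (∫ g, f g ∂μ))

end

section

variable {G : Type} [Group G] {n : ℕ}

/-- The character of `π`. -/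
noncomputable def tr (π : G →* Matrix.unitaryGroup (Fin n) ℂ) (g : G) : ℂ :=
  (π g : Matrix (Fin n) (Fin n) ℂ).trace

/-- `π` is continuous, its dimension is positive, and only the scalars commute with all matrices `π g`. -/
def IsIrreducible [TopologicalSpace G] (π : G →* Matrix.unitaryGroup (Fin n) ℂ) : Prop :=
  Continuous π ∧ n ≠ 0 ∧
    ∀ A : Matrix (Fin n) (Fin n) ℂ, (∀ g, (π g : Matrix (Fin n) (Fin n) ℂ) * A = A * π g) →
      ∃ c : ℂ, A = c • (1 : Matrix (Fin n) (Fin n) ℂ)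

variable {G' : Type} [Group G'] {n' : ℕ} {K : Type} [Field K] [NumberField K]

/-- The Euler product `L(π ⊗ π', s) = ∏_v det(1 - N(v)^{-s} π(x_v) ⊗ π'(x'_v))⁻¹`. -/
noncomputable def LFun (π : G →* Matrix.unitaryGroup (Fin n) ℂ) (x : HeightOneSpectrum (𝓞 K) → G)
    (π' : G' →* Matrix.unitaryGroup (Fin n') ℂ) (x' : HeightOneSpectrum (𝓞 K) → G')
    (s : ℂ) : ℂ :=
  ∏' v : HeightOneSpectrum (𝓞 K), (Matrix.det (1 - ((Ideal.absNorm v.asIdeal : ℂ) ^ (-s)) •
    ((π (x v) : Matrix (Fin n) (Fin n) ℂ) ⊗ₖ (π' (x' v) : Matrix (Fin n') (Fin n') ℂ))))⁻¹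

/-- `Λ` is a meromorphic continuation of `L(π ⊗ π', s)` to a neighbourhood of `1 + iτ`. -/
def IsContinuation (π : G →* Matrix.unitaryGroup (Fin n) ℂ) (x : HeightOneSpectrum (𝓞 K) → G)
    (π' : G' →* Matrix.unitaryGroup (Fin n') ℂ) (x' : HeightOneSpectrum (𝓞 K) → G')
    (τ : ℝ) (Λ : ℂ → ℂ) : Prop :=
  MeromorphicAt Λ (1 + τ * Complex.I) ∧
    ∀ᶠ s in 𝓝 ((1 : ℂ) + τ * Complex.I), (1 : ℝ) < s.re → Λ s = LFun π x π' x' s

/-- `π` and `π'` are matched with the sign `r`: the average of `|χ_π(x_v) - r χ_π'(x'_v)|²` tends to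
zero. -/
def Matched (π : G →* Matrix.unitaryGroup (Fin n) ℂ) (x : HeightOneSpectrum (𝓞 K) → G)
    (π' : G' →* Matrix.unitaryGroup (Fin n') ℂ) (x' : HeightOneSpectrum (𝓞 K) → G')
    (r : ℝ) : Prop :=
  Tendsto (avg fun v => ((‖tr π (x v) - r * tr π' (x' v)‖ ^ 2 : ℝ) : ℂ)) atTop (𝓝 0)

end

section Bridge

open Pool.Agent.TH553.ST Pool.Agent.TH553.RS Pool.Agent.W540.BE Pool.Agent.V1142.SC.Gou

variable {K : Type} [Field K] [NumberField K]

theorem avg_eq (g : HeightOneSpectrum (𝓞 K) → ℂ) : avg g = mn g := by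
  funext N
  have hs : ∀ v, v ∈ upto K N ↔ Ideal.absNorm v.asIdeal ≤ N := fun v => mem_upto
  let e : {v : HeightOneSpectrum (𝓞 K) // Ideal.absNorm v.asIdeal ≤ N} ≃ (upto K N) :=
    Equiv.subtypeEquivRight fun v => (hs v).symm
  have hfin : Finite {v : HeightOneSpectrum (𝓞 K) // Ideal.absNorm v.asIdeal ≤ N} :=
    Finite.of_equiv _ e.symm
  unfold avg mn
  have h1 : (∑ᶠ v : {v : HeightOneSpectrum (𝓞 K) // Ideal.absNorm v.asIdeal ≤ N}, g v.1) =
      ∑ v ∈ upto K N, g v := by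
    rw [← Finset.sum_coe_sort, ← finsum_eq_sum_of_fintype, ← finsum_comp_equiv e]
    rfl
  have h2 : Nat.card {v : HeightOneSpectrum (𝓞 K) // Ideal.absNorm v.asIdeal ≤ N} =
      (upto K N).card := by
    rw [Nat.card_congr e, Nat.card_eq_fintype_card, Fintype.card_coe]
  rw [h1, h2, Complex.real_smul, div_eq_inv_mul]
  push_cast
  rfl

theorem law_of {G : Type} [Group G] [TopologicalSpace G] [IsTopologicalGroup G] [CompactSpace G]
    [MeasurableSpace G] [BorelSpace G] {μ : Measure G} [IsProbabilityMeasure μ]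
    {x : HeightOneSpectrum (𝓞 K) → G} (h : Equidistributed x μ) : Law x μ := by
  intro f hf hcl
  have h1 := h (fun g => (f g : ℂ)) (Complex.continuous_ofReal.comp hf) fun g h => by rw [hcl]
  have h0 : ∫ g, (f g : ℂ) ∂μ = ((∫ g, f g ∂μ : ℝ) : ℂ) := integral_ofReal
  rw [avg_eq, h0] at h1
  have h2 := (Complex.continuous_re.tendsto _).comp h1
  refine h2.congr fun N => ?_
  simp only [Function.comp]
  rw [re_mn]
  rfl

variable {G : Type} [Group G] {n : ℕ} {π : G →* Matrix.unitaryGroup (Fin n) ℂ}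
  {G' : Type} [Group G'] {n' : ℕ} {π' : G' →* Matrix.unitaryGroup (Fin n') ℂ}
  {x : HeightOneSpectrum (𝓞 K) → G} {x' : HeightOneSpectrum (𝓞 K) → G'}

theorem matched_iff (r : ℝ) : Matched π x π' x' r ↔
    Tendsto (mn fun v => ‖chi π (x v) - r * chi π' (x' v)‖ ^ 2) atTop (𝓝 (0 : ℝ)) := by
  unfold Matched
  rw [avg_eq]
  have e : (mn fun v => ((‖tr π (x v) - r * tr π' (x' v)‖ ^ 2 : ℝ) : ℂ)) =
      fun N => ((mn (fun v => ‖chi π (x v) - r * chi π' (x' v)‖ ^ 2) N : ℝ) : ℂ) := by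
    funext N
    rw [ofReal_mn]
    rfl
  rw [e]
  constructor
  · intro h
    have h2 := (Complex.continuous_re.tendsto _).comp h
    exact h2
  · intro h
    have h2 := (Complex.continuous_ofReal.tendsto _).comp h
    exact h2

end Bridge

/-- **The joint distribution of two families.**  Let `K` be a number field, `G` and `G'` compact groups
with Haar probability measures `μ`, `μ'`, and `x_v ∈ G`, `x'_v ∈ G'` for the primes `v` of `K`, such that
the classes of the `x_v` and the classes of the `x'_v` are equidistributed.  Suppose that `L(π ⊗ π', s)`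
has a meromorphic continuation to a neighbourhood of each point of `Re s = 1`, for all nontrivial
irreducible unitary representations `π` of `G` and `π'` of `G'`, and that for one-dimensional `π` and
`π'` there are no zeros on the line and no poles except possibly at `s = 1`.  Then:

(a) for irreducible `π` and `π'` the average of `χ_π(x_v)` times the complex conjugate of `χ_π'(x'_v)`
tends to `0`, or there is a sign `r = ± 1` such that it tends to `r` and `π`, `π'` are matched with the sign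
`r`; in the second case the dimensions are the same, and `r = 1` if the dimension is one;

(b) every irreducible representation is matched with at most one character, with one sign;

(c) if `π₁`, `π₁'` are matched with the sign `r₁` and `π₂`, `π₂'` with the sign `r₂`, then there are
irreducible `σ_j`, `σ_j'`, matched with the sign `r₁ r₂`, such that `π₁ ⊗ π₂` is the sum of the `σ_j` and
`π₁' ⊗ π₂'` is the sum of the `σ_j'` (for the characters);

(d) for all continuous class functions `F` on `G × G'` the averages of `F(x_v, x'_v)` converge: the pairs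
have a limit distribution;

(e) the classes of the pairs `(x_v, x'_v)` are equidistributed in `G × G'`, or there are nontrivial
irreducible `σ` and `σ'` that are matched with the sign `+ 1`. -/
theorem result (K : Type) [Field K] [NumberField K]
    (G : Type) [Group G] [TopologicalSpace G] [IsTopologicalGroup G] [CompactSpace G] [T2Space G]
    [SecondCountableTopology G] [MeasurableSpace G] [BorelSpace G] (μ : Measure G)
    [IsProbabilityMeasure μ] [μ.IsHaarMeasure]
    (G' : Type) [Group G'] [TopologicalSpace G'] [IsTopologicalGroup G'] [CompactSpace G']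
    [T2Space G'] [SecondCountableTopology G'] [MeasurableSpace G'] [BorelSpace G']
    (μ' : Measure G') [IsProbabilityMeasure μ'] [μ'.IsHaarMeasure]
    (x : HeightOneSpectrum (𝓞 K) → G) (hx : Equidistributed x μ)
    (x' : HeightOneSpectrum (𝓞 K) → G') (hx' : Equidistributed x' μ')
    (hM : ∀ (n n' : ℕ) (π : G →* Matrix.unitaryGroup (Fin n) ℂ)
      (π' : G' →* Matrix.unitaryGroup (Fin n') ℂ) (τ : ℝ), IsIrreducible π → IsIrreducible π' →
      (∃ g, π g ≠ 1) → (∃ g, π' g ≠ 1) → ∃ Λ, IsContinuation π x π' x' τ Λ)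
    (hH : ∀ (χ : G →* Matrix.unitaryGroup (Fin 1) ℂ) (χ' : G' →* Matrix.unitaryGroup (Fin 1) ℂ)
      (τ : ℝ) (Λ : ℂ → ℂ) (m : ℤ), Continuous χ → Continuous χ' → (∃ g, χ g ≠ 1) →
      (∃ g, χ' g ≠ 1) → IsContinuation χ x χ' x' τ Λ →
      meromorphicOrderAt Λ (1 + τ * Complex.I) = m → m ≤ 0 ∧ (τ ≠ 0 → m = 0)) :
    (∀ (n n' : ℕ) (π : G →* Matrix.unitaryGroup (Fin n) ℂ)
      (π' : G' →* Matrix.unitaryGroup (Fin n') ℂ), IsIrreducible π → IsIrreducible π' →
      Tendsto (avg fun v => tr π (x v) * conj (tr π' (x' v))) atTop (𝓝 0) ∨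
      ∃ r : ℝ, (r = 1 ∨ r = -1) ∧ Matched π x π' x' r ∧ n = n' ∧ (n = 1 → r = 1) ∧
        Tendsto (avg fun v => tr π (x v) * conj (tr π' (x' v))) atTop (𝓝 r)) ∧
    ((∀ (n n₁ n₂ : ℕ) (π : G →* Matrix.unitaryGroup (Fin n) ℂ)
      (π₁ : G' →* Matrix.unitaryGroup (Fin n₁) ℂ) (π₂ : G' →* Matrix.unitaryGroup (Fin n₂) ℂ)
      (r₁ r₂ : ℝ), IsIrreducible π → IsIrreducible π₁ → IsIrreducible π₂ →
      (r₁ = 1 ∨ r₁ = -1) → (r₂ = 1 ∨ r₂ = -1) → Matched π x π₁ x' r₁ → Matched π x π₂ x' r₂ →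
      tr π₁ = tr π₂ ∧ r₁ = r₂) ∧
     ∀ (n' n₁ n₂ : ℕ) (π' : G' →* Matrix.unitaryGroup (Fin n') ℂ)
      (π₁ : G →* Matrix.unitaryGroup (Fin n₁) ℂ) (π₂ : G →* Matrix.unitaryGroup (Fin n₂) ℂ)
      (r₁ r₂ : ℝ), IsIrreducible π' → IsIrreducible π₁ → IsIrreducible π₂ →
      (r₁ = 1 ∨ r₁ = -1) → (r₂ = 1 ∨ r₂ = -1) → Matched π₁ x π' x' r₁ → Matched π₂ x π' x' r₂ →
      tr π₁ = tr π₂ ∧ r₁ = r₂) ∧
    (∀ (n₁ n₂ n₁' n₂' : ℕ) (π₁ : G →* Matrix.unitaryGroup (Fin n₁) ℂ)
      (π₂ : G →* Matrix.unitaryGroup (Fin n₂) ℂ) (π₁' : G' →* Matrix.unitaryGroup (Fin n₁') ℂ)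
      (π₂' : G' →* Matrix.unitaryGroup (Fin n₂') ℂ) (r₁ r₂ : ℝ), IsIrreducible π₁ →
      IsIrreducible π₂ → IsIrreducible π₁' → IsIrreducible π₂' → (r₁ = 1 ∨ r₁ = -1) →
      (r₂ = 1 ∨ r₂ = -1) → Matched π₁ x π₁' x' r₁ → Matched π₂ x π₂' x' r₂ →
      ∃ (J : Type) (_ : Fintype J) (m m' : J → ℕ)
        (σ : ∀ j, G →* Matrix.unitaryGroup (Fin (m j)) ℂ)
        (σ' : ∀ j, G' →* Matrix.unitaryGroup (Fin (m' j)) ℂ),
        (∀ j, IsIrreducible (σ j)) ∧ (∀ j, IsIrreducible (σ' j)) ∧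
        (∀ j, Matched (σ j) x (σ' j) x' (r₁ * r₂)) ∧
        (∀ g, tr π₁ g * tr π₂ g = ∑ j, tr (σ j) g) ∧
        ∀ g, tr π₁' g * tr π₂' g = ∑ j, tr (σ' j) g) ∧
    (∀ F : G × G' → ℂ, Continuous F → (∀ p q, F (q * p * q⁻¹) = F p) →
      ∃ c, Tendsto (avg fun v => F (x v, x' v)) atTop (𝓝 c)) ∧
    (Equidistributed (fun v => (x v, x' v)) (μ.prod μ') ∨
      ∃ (d : ℕ) (σ : G →* Matrix.unitaryGroup (Fin d) ℂ)
        (σ' : G' →* Matrix.unitaryGroup (Fin d) ℂ), IsIrreducible σ ∧ IsIrreducible σ' ∧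
        (∃ g, σ g ≠ 1) ∧ (∃ g, σ' g ≠ 1) ∧ Matched σ x σ' x' 1) := by
  have nz : ∀ {H : Type} [Group H] {n : ℕ} {π : H →* Matrix.unitaryGroup (Fin n) ℂ},
      (∃ g, π g ≠ 1) → n ≠ 0 := by
    rintro H _ n π ⟨g, hg⟩ rfl
    exact hg (Subtype.ext (Subsingleton.elim _ _))
  have H : Pool.Agent.V1142.SC.Gou.Hyp x μ x' μ' :=
    { law := law_of hx
      law' := law_of hx'
      cont := fun n n' π π' τ h1 h2 h3 h4 h5 h6 => by
        obtain ⟨Λ, h7⟩ := hM n n' π π' τ ⟨h1, nz h5, h2⟩ ⟨h3, nz h6, h4⟩ h5 h6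
        exact ⟨Λ, h7.1, h7.2⟩
      one := fun χ χ' τ Λ m h1 h2 h3 h4 h5 h6 h7 => by
        obtain ⟨h8, h9⟩ := hH χ χ' τ Λ m h1 h2 h3 h4 ⟨h5, h6⟩ h7
        exact ⟨h9, h8⟩ }
  refine ⟨fun n n' π π' h h' => ?_, ⟨?_, ?_⟩, ?_, fun F hF hcl => ?_, ?_⟩
  · obtain ⟨c, h1, h2⟩ := Pool.Agent.V1142.SC.Gou.corr H h.1 h.2.2 h.2.1 h'.1 h'.2.2 h'.2.1
    rcases h1 with h1 | ⟨h3, h4, h5⟩
    · left
      rw [h1, Int.cast_zero] at h2
      rw [avg_eq]
      exact h2
    · right
      refine ⟨(c : ℝ), ?_, ?_, h4, fun hn => ?_, ?_⟩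
      · rcases h3 with h | h <;> rw [h] <;> norm_num
      · rw [matched_iff]
        exact Pool.Agent.V1142.SC.Gou.mat_of_corr H h.1 h.2.2 h.2.1 h'.1 h'.2.2 h'.2.1 h3 h2
      · rw [h5 hn]
        norm_num
      · rw [avg_eq]
        push_cast
        exact h2
  · intro n n₁ n₂ π π₁ π₂ r₁ r₂ _ h1 h2 hr1 hr2 m1 m2
    rw [matched_iff] at m1 m2
    exact Pool.Agent.V1142.SC.Gou.mat_unique H h1.1 h1.2.1 h2.1 h2.2.1 hr1 hr2 m1 m2
  · intro n' n₁ n₂ π' π₁ π₂ r₁ r₂ _ h1 h2 hr1 hr2 m1 m2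
    rw [matched_iff] at m1 m2
    exact Pool.Agent.V1142.SC.Gou.mat_unique' H h1.1 h1.2.1 h2.1 h2.2.1 hr1 hr2 m1 m2
  · intro n₁ n₂ n₁' n₂' π₁ π₂ π₁' π₂' r₁ r₂ h1 h2 h1' h2' hr1 hr2 m1 m2
    rw [matched_iff] at m1 m2
    obtain ⟨J, iJ, m, m', σ, σ', q1, q2, q3, q4, q5⟩ := Pool.Agent.V1142.SC.Gou.transport H
      h1.1 h2.1 h1'.1 h2'.1 hr1 hr2 m1 m2
    exact ⟨J, iJ, m, m', σ, σ', fun j => ⟨(q1 j).1, (q1 j).2.2, (q1 j).2.1⟩,
      fun j => ⟨(q2 j).1, (q2 j).2.2, (q2 j).2.1⟩, fun j => (matched_iff _).2 (q3 j), q4, q5⟩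
  · rw [avg_eq]
    exact Pool.Agent.V1142.SC.Gou.joint_limit H hF hcl
  · by_contra hcon
    push Not at hcon
    obtain ⟨hE, hno⟩ := hcon
    refine hE fun f hf hcl => ?_
    rw [avg_eq]
    refine Pool.Agent.V1142.SC.Gou.joint_of H.law H.law'
      (fun n n' π π' h1 h2 h3 h4 h5 h6 => ?_) hf hcl
    refine Pool.Agent.V1142.SC.Gou.alternative H (fun d d' σ σ' k1 k2 k3 k4 k5 k6 k7 => ?_)
      h1 h2 h3 h4 h5 h6
    have hdd : d = d' := (Pool.Agent.V1142.SC.Gou.corr_of_mat H k1 k2 (nz k3) k4 k5 (nz k6)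
      (Or.inl rfl) k7).2.1
    subst hdd
    exact hno d σ σ' ⟨k1, nz k3, k2⟩ ⟨k4, nz k6, k5⟩ k3 k6 ((matched_iff _).2 k7)

end Pool.Agent.Results.MP_c481b3_nt.CommonQuotient
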