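import Pool.Agent.V1142.SC.Rl6

/-!
# Meromorphic symmetric power `L`-functions and the Sato-Tate law over arbitrary number fields

`K` is any number field and `θ_v ∈ ℝ` a family of angles for the primes `v` of `K`, for example the Frobenius
angles `a_v = 2 N(v)^{1/2} cos θ_v` of an elliptic curve over `K` (arbitrary angles at the finitely many bad
primes); the Sato-Tate law is open for most `K` that are neither totally real nor CM.  Serre's criterion deduces
it from continuations of all `L(Symⁿ, s)` to the line `Re s = 1` that are holomorphic and have no zeros.  The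
theorem assumes much less: a meromorphic continuation of each `L(Symⁿ, s)` to a neighbourhood of the single
point `s = 1`, with nothing said about zeros and poles there, except that `L(Sym², s)` has no pole (for an
elliptic curve it should have one only if there is complex multiplication over `K`).  It says that then there
are exactly the three possibilities that one has for the Sato-Tate groups:

A. the law of `SU(2)` holds, and no `L(Symⁿ, s)`, `n ≥ 1`, has a zero or a pole at `s = 1`;

B. the law of the normaliser of `U(1)` holds, `L(Symⁿ, s)` has a simple pole at `s = 1` if `4 ∣ n` and neither a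
zero nor a pole for the other `n ≥ 1`;

C. there is an integer `N ≥ 1` such that the angles accumulate only at multiples of `π/N`, outside a set of
density zero (representations with finite image are examples).

The laws are in the sense of Dirichlet densities.  If there are meromorphic continuations to neighbourhoods of
all points of the line `Re s = 1` then in the first case there are no zeros and poles on the line and
the Sato-Tate law holds in the sense of natural densities.

The proof: the averages of `2 cos(2kθ)` are integers, by the existence of orders at `s = 1`, and form a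
positive definite sequence with the value two at zero; that is, the vectors `e^{2ikθ}` generate a
root lattice, with a shift.  The first two cases are infinite root systems, the third one is that of the
finite root systems `A_n`, `D_n`, `E₆`, `E₇`, `E₈`.
-/

set_option autoImplicit false

namespace Pool.Agent.Results.MP_c481b3_nt.MeromorphyOfSymmetricPowers

open NumberField IsDedekindDomain Filter Topology

section

variable {K : Type} [Field K] [NumberField K]

/-- The average of `φ` over the primes of `K` of norm at most `N`. -/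
noncomputable def avg (φ : HeightOneSpectrum (𝓞 K) → ℝ) (N : ℕ) : ℝ :=
  (∑ᶠ w : {w : HeightOneSpectrum (𝓞 K) // Ideal.absNorm w.asIdeal ≤ N}, φ w.1) /
    (Nat.card {w : HeightOneSpectrum (𝓞 K) // Ideal.absNorm w.asIdeal ≤ N} : ℝ)

/-- The quotient `∑ φ(v) N(v)^{-1-ε} / ∑ N(v)^{-1-ε}`. -/
noncomputable def dirichletAvg (φ : HeightOneSpectrum (𝓞 K) → ℝ) (ε : ℝ) : ℝ :=
  (∑' v : HeightOneSpectrum (𝓞 K), φ v * (Ideal.absNorm v.asIdeal : ℝ) ^ (-(1 + ε))) /
    ∑' v : HeightOneSpectrum (𝓞 K), (Ideal.absNorm v.asIdeal : ℝ) ^ (-(1 + ε))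

/-- The integral of `f(2 cos t)` for the Sato-Tate measure `(2/π) sin² t dt`. -/
noncomputable def satoTate (f : ℝ → ℝ) : ℝ :=
  2 / Real.pi * ∫ t in (0 : ℝ)..Real.pi, f (2 * Real.cos t) * Real.sin t ^ 2

/-- The integral of `f(2 cos t)` for the measure of the normaliser of `U(1)` in `SU(2)`: half of the uniform
measure `dt/π` and half of the point mass at `t = π/2`. -/
noncomputable def normaliserLaw (f : ℝ → ℝ) : ℝ :=
  1 / (2 * Real.pi) * (∫ t in (0 : ℝ)..Real.pi, f (2 * Real.cos t)) + f 0 / 2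

/-- The Euler product `L(Symⁿ, s) = ∏_v ∏_{j ≤ n} (1 - e^{i(n-2j)θ_v} N(v)^{-s})⁻¹`. -/
noncomputable def LSym (θ : HeightOneSpectrum (𝓞 K) → ℝ) (n : ℕ) (s : ℂ) : ℂ :=
  ∏' v : HeightOneSpectrum (𝓞 K), (∏ j ∈ Finset.range (n + 1),
    (1 - Complex.exp (((((n : ℝ) - 2 * (j : ℝ)) * θ v : ℝ) : ℂ) * Complex.I) *
      (Ideal.absNorm v.asIdeal : ℂ) ^ (-s)))⁻¹

/-- `L(Symⁿ, s)` has a meromorphic continuation to a neighbourhood of `1 + iτ`. -/
def Meromorphic (θ : HeightOneSpectrum (𝓞 K) → ℝ) (n : ℕ) (τ : ℝ) : Prop :=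
  ∃ Λ : ℂ → ℂ, MeromorphicAt Λ (1 + τ * Complex.I) ∧
    ∀ᶠ s in 𝓝 ((1 : ℂ) + τ * Complex.I), (1 : ℝ) < s.re → Λ s = LSym θ n s

/-- It has the order `m` at `1 + iτ` (positive at zeros, negative at poles). -/
def HasOrder (θ : HeightOneSpectrum (𝓞 K) → ℝ) (n : ℕ) (τ : ℝ) (m : ℤ) : Prop :=
  ∃ Λ : ℂ → ℂ, MeromorphicAt Λ (1 + τ * Complex.I) ∧
    (∀ᶠ s in 𝓝 ((1 : ℂ) + τ * Complex.I), (1 : ℝ) < s.re → Λ s = LSym θ n s) ∧
    meromorphicOrderAt Λ (1 + τ * Complex.I) = m

open Classical in
/-- The set of primes `S` has Dirichlet density zero. -/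
noncomputable def DensityZero (S : Set (HeightOneSpectrum (𝓞 K))) : Prop :=
  Tendsto (dirichletAvg fun v => if v ∈ S then 1 else 0) (𝓝[>] 0) (𝓝 0)

end

section Bridge

open Pool.Agent.TH553.ST Pool.Agent.TH553.RS Pool.Agent.W540.BE Pool.Agent.V1142.SC
  Pool.Agent.V1142.SC.Many

variable {K : Type} [Field K] [NumberField K]

theorem avg_eq (g : HeightOneSpectrum (𝓞 K) → ℝ) (N : ℕ) :
    ((avg g N : ℝ) : ℂ) = mn (fun v => ((g v : ℝ) : ℂ)) N := by
  have hs : ∀ v, v ∈ upto K N ↔ Ideal.absNorm v.asIdeal ≤ N := fun v => mem_upto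
  let e : {v : HeightOneSpectrum (𝓞 K) // Ideal.absNorm v.asIdeal ≤ N} ≃ (upto K N) :=
    Equiv.subtypeEquivRight fun v => (hs v).symm
  have hfin : Finite {v : HeightOneSpectrum (𝓞 K) // Ideal.absNorm v.asIdeal ≤ N} :=
    Finite.of_equiv _ e.symm
  unfold avg mn
  have h1 : (∑ᶠ v : {v : HeightOneSpectrum (𝓞 K) // Ideal.absNorm v.asIdeal ≤ N}, g v.1) =
      ∑ v ∈ upto K N, g v := by
    rw [← Finset.sum_coe_sort, ← finsum_eq_sum_of_fintype, ← finsum_comp_equiv e]
    rfl
  have h2 : Nat.card {v : HeightOneSpectrum (𝓞 K) // Ideal.absNorm v.asIdeal ≤ N} =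
      (upto K N).card := by
    rw [Nat.card_congr e, Nat.card_eq_fintype_card, Fintype.card_coe]
  rw [h1, h2, Complex.real_smul, div_eq_inv_mul]
  push_cast
  rfl

theorem LSym_eq (θ : HeightOneSpectrum (𝓞 K) → ℝ) (n : ℕ) :
    LSym θ n = LA (fun v => Rl.Am n (θ v)) := by
  funext s
  unfold LSym LA
  refine tprod_congr fun v => ?_
  congr 1
  have h1 : (1 : Matrix (Fin (n + 1)) (Fin (n + 1)) ℂ) - (((nm K v : ℕ) : ℂ) ^ (-s)) •
      Rl.Am n (θ v) = Matrix.diagonal fun j : Fin (n + 1) => 1 -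
        Complex.exp (((((n : ℝ) - 2 * ((j : ℕ) : ℝ)) * θ v : ℝ) : ℂ) * Complex.I) *
          ((nm K v : ℕ) : ℂ) ^ (-s) := by
    unfold Rl.Am
    rw [← Matrix.diagonal_one, ← Matrix.diagonal_smul, Matrix.diagonal_sub]
    congr 1
    funext j
    simp only [Pi.smul_apply, smul_eq_mul]
    rw [mul_comm]
  rw [h1, Matrix.det_diagonal, Fin.prod_univ_eq_prod_range (fun j : ℕ => 1 -
        Complex.exp (((((n : ℝ) - 2 * (j : ℝ)) * θ v : ℝ) : ℂ) * Complex.I) *
          ((nm K v : ℕ) : ℂ) ^ (-s)) (n + 1)]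
  rfl

theorem hasOrder_iff {θ : HeightOneSpectrum (𝓞 K) → ℝ} {n : ℕ} {τ : ℝ} {m : ℤ} :
    HasOrder θ n τ m ↔ Rl.OrdA θ n τ m := by
  unfold HasOrder Rl.OrdA
  rw [LSym_eq]

theorem exists_order {θ : HeightOneSpectrum (𝓞 K) → ℝ} {n : ℕ} {τ : ℝ} (h : Meromorphic θ n τ) :
    ∃ m : ℤ, Rl.OrdA θ n τ m := by
  unfold Meromorphic at h
  rw [LSym_eq] at h
  exact Rl.exists_ordA θ h

theorem dirichletAvg_eq (φ : HeightOneSpectrum (𝓞 K) → ℝ) :
    dirichletAvg φ = fun ε : ℝ => EP (nm K) ε φ / EP (nm K) ε fun _ => 1 := by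
  funext ε
  unfold dirichletAvg EP
  simp only [one_mul]
  rfl

theorem tendsto_dirichlet {φ : HeightOneSpectrum (𝓞 K) → ℝ} (hφ : Bd φ) {c : ℝ}
    (h : ∀ U : Ultrafilter ℝ, (U : Filter ℝ) ≤ 𝓝[>] 0 → M (nm K) U φ = c) :
    Tendsto (dirichletAvg φ) (𝓝[>] 0) (𝓝 c) := by
  rw [dirichletAvg_eq]
  exact Rl.ratio_of_qt (Rl.qt_of_M hφ h)

end Bridge

/-- **Meromorphic symmetric power `L`-functions and the Sato-Tate law.**  Let `K` be a number field and `θ_v` real
numbers for the primes `v` of `K` such that for all `n ≥ 1` the Euler product `L(Symⁿ, s)` has a meromorphic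
continuation to a neighbourhood of `s = 1`, without a pole at `s = 1` if `n = 2`.  Then one of the
following holds.

A.  For all `n ≥ 1` the order of `L(Symⁿ, s)` at `s = 1` is zero; for all continuous `f` the Dirichlet average of
`f(2 cos θ_v)` is the integral of `f` for the Sato-Tate measure; and if for all `n ≥ 1` there are meromorphic
continuations to neighbourhoods of all points of the line `Re s = 1` then all orders on the line are zero and
the averages of `f(2 cos θ_v)` over the primes of norm at most `X` converge to the integral of `f` for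
the Sato-Tate measure.

B.  For all `n ≥ 1` the order of `L(Symⁿ, s)` at `s = 1` is `-1` if `4 ∣ n` and zero otherwise, and for all
continuous `f` the Dirichlet average of `f(2 cos θ_v)` is the integral of `f` for the measure of the normaliser
of `U(1)` in `SU(2)`.

C.  There is `N ≥ 1` such that for all `δ > 0` the set of the primes `v` with `|sin (N θ_v)| ≥ δ` has
Dirichlet density zero. -/
theorem result (K : Type) [Field K] [NumberField K] (θ : HeightOneSpectrum (𝓞 K) → ℝ)
    (hmer : ∀ n : ℕ, 1 ≤ n → Meromorphic θ n 0)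
    (h2 : ∀ m : ℤ, HasOrder θ 2 0 m → 0 ≤ m) :
    ((∀ n : ℕ, 1 ≤ n → HasOrder θ n 0 0) ∧
      (∀ f : ℝ → ℝ, Continuous f →
        Tendsto (dirichletAvg fun v => f (2 * Real.cos (θ v))) (𝓝[>] 0) (𝓝 (satoTate f))) ∧
      ((∀ (n : ℕ) (τ : ℝ), 1 ≤ n → Meromorphic θ n τ) →
        (∀ (n : ℕ) (τ : ℝ), 1 ≤ n → HasOrder θ n τ 0) ∧
        ∀ f : ℝ → ℝ, Continuous f →
          Tendsto (avg fun v => f (2 * Real.cos (θ v))) atTop (𝓝 (satoTate f)))) ∨
    ((∀ n : ℕ, 1 ≤ n → HasOrder θ n 0 (if 4 ∣ n then -1 else 0)) ∧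
      ∀ f : ℝ → ℝ, Continuous f →
        Tendsto (dirichletAvg fun v => f (2 * Real.cos (θ v))) (𝓝[>] 0)
          (𝓝 (normaliserLaw f))) ∨
    ∃ N : ℕ, 1 ≤ N ∧ ∀ δ : ℝ, 0 < δ → DensityZero {v | δ ≤ |Real.sin (N * θ v)|} := by
  have hex : ∀ n : ℕ, ∃ m : ℤ, 1 ≤ n → Pool.Agent.V1142.SC.Rl.OrdA θ n 0 m := by
    intro n
    by_cases hn : 1 ≤ n
    · obtain ⟨m, hm⟩ := exists_order (hmer n hn)
      exact ⟨m, fun _ => hm⟩
    · exact ⟨0, fun h => absurd h hn⟩
  choose r hr using hex
  obtain ⟨U₀, hU₀⟩ := Pool.Agent.V1142.SC.Hol.exists_U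
  rcases Pool.Agent.V1142.SC.Rl.alternative hr (h2 _ (hasOrder_iff.2 (hr 2 (by norm_num)))) with
    hA | hC | ⟨N, hN, hB⟩
  · left
    have hz : ∀ n, 1 ≤ n → r n = 0 := fun n hn => hA U₀ hU₀ n hn _
      (Pool.Agent.V1142.SC.Rl.bd_ch n) (fun v => le_rfl) (r n) ((hr n hn).am0 hU₀)
    have hz' : ∀ n, 1 ≤ n → Pool.Agent.V1142.SC.Rl.OrdA θ n 0 0 := fun n hn => by
      have := hr n hn
      rwa [hz n hn] at this
    refine ⟨fun n hn => hasOrder_iff.2 (hz' n hn), fun f hf => ?_, fun hall => ?_⟩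
    · refine tendsto_dirichlet (Pool.Agent.V1142.SC.Rl.bd_f hf) fun U hU => ?_
      refine Pool.Agent.V1142.SC.Rl.M_law_f hU (fun n hn => ?_) hf
      rw [(hz' n hn).am0 hU]
      simp
    · have hline : ∀ (n : ℕ) (τ : ℝ), 1 ≤ n → Pool.Agent.V1142.SC.Rl.OrdA θ n τ 0 := by
        intro n τ hn
        obtain ⟨m, hm⟩ := exists_order (hall n τ hn)
        have h5 := hA U₀ hU₀ n hn (fun v => Pool.Agent.V1142.SC.Rl.ch n (θ v) *
          Real.cos (τ * Real.log (Pool.Agent.W540.BE.nm K v : ℕ))) ?_ (fun v => ?_) m (hm.am hU₀)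
        · rwa [h5] at hm
        · exact (Pool.Agent.V1142.SC.Rl.bd_ch n).mul ⟨1, fun v => Real.abs_cos_le_one _⟩
        · rw [abs_mul]
          exact mul_le_of_le_one_right (abs_nonneg _) (Real.abs_cos_le_one _)
      refine ⟨fun n τ hn => hasOrder_iff.2 (hline n τ hn), fun f hf => ?_⟩
      have h6 := Pool.Agent.V1142.SC.Rl.mn_law_f (θ := θ) (fun n hn => ?_) hf
      · have h7 := (Complex.continuous_re.tendsto _).comp h6
        refine (h7.congr fun N => ?_)
        simp only [Function.comp]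
        rw [← avg_eq, Complex.ofReal_re]
      · have h7 := Pool.Agent.V1142.SC.Many.avg_LA
          (fun v => Pool.Agent.V1142.SC.Rl.Am_mem n (θ v)) fun τ => hline n τ hn
        refine h7.congr fun N => ?_
        congr 1
        funext v
        exact Pool.Agent.V1142.SC.Rl.Am_trace n (θ v)
  · right
    left
    refine ⟨fun n hn => hasOrder_iff.2 ?_, fun f hf => ?_⟩
    · have h5 := (Pool.Agent.V1142.SC.Rl.M_ch_CM hU₀ (hC U₀ hU₀) n).2
      rw [(hr n hn).am0 hU₀] at h5
      have h6 : r n = if 4 ∣ n then -1 else 0 := by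
        by_cases h7 : 4 ∣ n
        · rw [if_pos h7]
          rw [if_pos (Nat.mod_eq_zero_of_dvd h7)] at h5
          have : (r n : ℝ) = -1 := by linarith
          exact_mod_cast this
        · rw [if_neg h7]
          rw [if_neg fun h => h7 (Nat.dvd_of_mod_eq_zero h)] at h5
          have : (r n : ℝ) = 0 := by linarith
          exact_mod_cast this
      rw [← h6]
      exact hr n hn
    · refine tendsto_dirichlet (Pool.Agent.V1142.SC.Rl.bd_f hf) fun U hU => ?_
      rw [Pool.Agent.V1142.SC.Rl.M_law_CM hU (hC U hU) hf]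
      unfold Pool.Agent.V1142.SC.Rl.CM normaliserLaw
      simp only [Real.cos_pi_div_two, mul_zero]
  · right
    right
    refine ⟨N, hN, fun δ hδ => ?_⟩
    classical
    unfold DensityZero
    have hN' := Pool.Agent.TH553.RS.sysF K
    have hb : Pool.Agent.TH553.RS.Bd fun v : HeightOneSpectrum (𝓞 K) =>
        (if v ∈ {v | δ ≤ |Real.sin (N * θ v)|} then (1 : ℝ) else 0) := by
      refine ⟨1, fun v => ?_⟩
      simp only
      split_ifs <;> simp
    refine tendsto_dirichlet hb fun U hU => ?_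
    have hb2 : Pool.Agent.TH553.RS.Bd fun v => 2 - 2 * Real.cos (2 * (N : ℝ) * θ v) :=
      (Pool.Agent.TH553.RS.Bd.const 2).sub (Pool.Agent.V1142.SC.Rl.bd_cos _)
    refine Pool.Agent.TH553.ST.M_zero_of_le hN' hU hb (hb2.const_mul (1 / (4 * δ ^ 2)))
      (fun v => by split_ifs <;> norm_num) (fun v => ?_) ?_
    · have e : 2 * (N : ℝ) * θ v = 2 * (N * θ v) := by ring
      have e2 : 2 - 2 * Real.cos (2 * (N : ℝ) * θ v) = 4 * Real.sin (N * θ v) ^ 2 := by
        rw [e, Real.cos_two_mul]
        linear_combination (-4) * Real.sin_sq_add_cos_sq (N * θ v)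
      split_ifs with h
      · have h8 : δ ^ 2 ≤ Real.sin (N * θ v) ^ 2 := by
          rw [← sq_abs (Real.sin _)]
          exact pow_le_pow_left₀ hδ.le h 2
        rw [e2, one_div, inv_mul_eq_div, le_div_iff₀ (by positivity)]
        linarith
      · have : 0 ≤ 2 - 2 * Real.cos (2 * (N : ℝ) * θ v) := by
          linarith [Real.cos_le_one (2 * (N : ℝ) * θ v)]
        positivity
    · rw [Pool.Agent.TH553.RS.M_const_mul hN' hU hb2, hB U hU, mul_zero]

end Pool.Agent.Results.MP_c481b3_nt.MeromorphyOfSymmetricPowers
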