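import Pool.Agent.V1142.SC.Many

/-!
# The Sato-Tate conjecture for products of many abelian varieties, from the pairs

In the intended use `A_i` are abelian varieties over the number field `K`, of any dimensions,
`G_i` are their Sato-Tate groups, and `x_{i,v} ∈ G_i` are elements of the classes of the
prime `v` of `K` (any elements at the finitely many exceptional primes; this changes the
`L`-functions below by finitely many factors without zeros and poles in `Re s > 0`).  If the product of
the `G_i` is the Sato-Tate group of the product `A` of the `A_i` then the conjecture for `A` says that the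
tuples `(x_{i,v})_i` are equidistributed in the classes of the product of the `G_i`.  Since finite sums of
products of continuous class functions on the factors are dense in the continuous class functions on the
product, this is the statement `JointLaw` below for the set of all indices.

The criterion of Serre for `A` asks for the continuation of the functions `L(⊗ π_i, s)` to `Re s ≥ 1`
without zeros and poles, for all families of irreducible representations `π_i` of the `G_i`, not all
trivial.  The theorem says that it is enough to know the joint law for all pairs, and that the `L(⊗ π_i, s)`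
with at least three nontrivial `π_i` have meromorphic continuations to neighbourhoods of the points
of `Re s = 1`: zeros and poles are excluded if not all dimensions are one.

For instance, the joint law is known for pairs of elliptic curves over totally real fields without
complex multiplication which are not twists of each other, and not known for three such curves; the groups
are `SU(2)`, which has no nontrivial representation of dimension one.
-/

set_option autoImplicit false

namespace Pool.Agent.Results.MP_c481b3_nt.PairwiseToJoint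

open NumberField IsDedekindDomain Filter Topology MeasureTheory

section

variable {K : Type} [Field K] [NumberField K]

/-- The average of `φ` over the primes of `K` of norm at most `N`. -/
noncomputable def avg (φ : HeightOneSpectrum (𝓞 K) → ℂ) (N : ℕ) : ℂ :=
  (∑ᶠ v : {v : HeightOneSpectrum (𝓞 K) // Ideal.absNorm v.asIdeal ≤ N}, φ v.1) /
    (Nat.card {v : HeightOneSpectrum (𝓞 K) // Ideal.absNorm v.asIdeal ≤ N} : ℂ)

end

section

variable {G : Type} [Group G]

/-- A continuous class function. -/
def IsClassFunction [TopologicalSpace G] (f : G → ℂ) : Prop :=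
  Continuous f ∧ ∀ g h, f (h * g * h⁻¹) = f g

variable {n : ℕ}

/-- The character of `π`. -/
noncomputable def tr (π : G →* Matrix.unitaryGroup (Fin n) ℂ) (g : G) : ℂ :=
  (π g : Matrix (Fin n) (Fin n) ℂ).trace

/-- The unitary representation `π` is continuous and irreducible: only the scalars commute with
all matrices `π g`. -/
structure IsIrreducible [TopologicalSpace G] (π : G →* Matrix.unitaryGroup (Fin n) ℂ) : Prop where
  continuous : Continuous π
  schur : ∀ A : Matrix (Fin n) (Fin n) ℂ, (∀ g, (π g : Matrix (Fin n) (Fin n) ℂ) * A = A * π g) →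
    ∃ c : ℂ, A = c • (1 : Matrix (Fin n) (Fin n) ℂ)

end

section

variable {K : Type} [Field K] [NumberField K] {ι : Type} [Fintype ι] {G : ι → Type}
  [∀ i, Group (G i)]

/-- The `x i`, `i ∈ S`, are jointly equidistributed: the average of the products of continuous class
functions of the `x i v` is the product of the integrals. -/
def JointLaw [∀ i, TopologicalSpace (G i)] [∀ i, MeasurableSpace (G i)]
    (x : ∀ i, HeightOneSpectrum (𝓞 K) → G i) (μ : ∀ i, Measure (G i)) (S : Finset ι) : Prop :=
  ∀ f : ∀ i, G i → ℂ, (∀ i, IsClassFunction (f i)) →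
    Tendsto (avg fun v => ∏ i ∈ S, f i (x i v)) atTop (𝓝 (∏ i ∈ S, ∫ g, f i g ∂(μ i)))

variable [DecidableEq ι] {n : ι → ℕ}

/-- The tensor product of the matrices `A i`. -/
noncomputable def tensor (A : ∀ i, Matrix (Fin (n i)) (Fin (n i)) ℂ) :
    Matrix (∀ i, Fin (n i)) (∀ i, Fin (n i)) ℂ := Matrix.of fun a b => ∏ i, A i (a i) (b i)

/-- The Euler product `L(⊗ π_i, s) = ∏_v det(1 - N(v)^{-s} ⊗ π_i(x_{i,v}))⁻¹`. -/
noncomputable def LFun (π : ∀ i, G i →* Matrix.unitaryGroup (Fin (n i)) ℂ)
    (x : ∀ i, HeightOneSpectrum (𝓞 K) → G i) (s : ℂ) : ℂ :=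
  ∏' v : HeightOneSpectrum (𝓞 K), (Matrix.det (1 - ((Ideal.absNorm v.asIdeal : ℂ) ^ (-s)) •
    tensor fun i => (π i (x i v) : Matrix (Fin (n i)) (Fin (n i)) ℂ)))⁻¹

/-- `log |L(⊗ π_i, 1 + iτ + ε)| / log (1/ε)`. -/
noncomputable def size (π : ∀ i, G i →* Matrix.unitaryGroup (Fin (n i)) ℂ)
    (x : ∀ i, HeightOneSpectrum (𝓞 K) → G i) (τ ε : ℝ) : ℝ :=
  Real.log ‖LFun π x (1 + τ * Complex.I + ε)‖ / Real.log (1 / ε)

/-- `Λ` is a meromorphic continuation of `L(⊗ π_i, s)` to a neighbourhood of `1 + iτ`. -/
def IsContinuation (π : ∀ i, G i →* Matrix.unitaryGroup (Fin (n i)) ℂ)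
    (x : ∀ i, HeightOneSpectrum (𝓞 K) → G i) (τ : ℝ) (Λ : ℂ → ℂ) : Prop :=
  MeromorphicAt Λ (1 + τ * Complex.I) ∧
    ∀ᶠ s in 𝓝 ((1 : ℂ) + τ * Complex.I), (1 : ℝ) < s.re → Λ s = LFun π x s

/-- At least three of the representations are not trivial. -/
def ThreeNontrivial (π : ∀ i, G i →* Matrix.unitaryGroup (Fin (n i)) ℂ) : Prop :=
  ∃ S : Finset ι, 3 ≤ S.card ∧ ∀ i ∈ S, ∃ g, π i g ≠ 1

end

section Bridge

set_option linter.unusedSectionVars false

open Pool.Agent.TH553.ST Pool.Agent.W540.BE Pool.Agent.V1142.SC.Many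

variable {K : Type} [Field K] [NumberField K]

theorem avg_eq (g : HeightOneSpectrum (𝓞 K) → ℂ) : avg g = mn g := by
  funext N
  have hs : ∀ v, v ∈ upto K N ↔ Ideal.absNorm v.asIdeal ≤ N := fun v => mem_upto
  let e : {v : HeightOneSpectrum (𝓞 K) // Ideal.absNorm v.asIdeal ≤ N} ≃ (upto K N) :=
    Equiv.subtypeEquivRight fun v => (hs v).symm
  have hfin : Finite {v : HeightOneSpectrum (𝓞 K) // Ideal.absNorm v.asIdeal ≤ N} :=
    Finite.of_equiv _ e.symm
  unfold avg mn
  have h1 : (∑ᶠ v : {v : HeightOneSpectrum (𝓞 K) // Ideal.absNorm v.asIdeal ≤ N}, g v.1) =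
      ∑ v ∈ upto K N, g v := by
    rw [← Finset.sum_coe_sort, ← finsum_eq_sum_of_fintype, ← finsum_comp_equiv e]
    rfl
  have h2 : Nat.card {v : HeightOneSpectrum (𝓞 K) // Ideal.absNorm v.asIdeal ≤ N} =
      (upto K N).card := by
    rw [Nat.card_congr e, Nat.card_eq_fintype_card, Fintype.card_coe]
  rw [h1, h2, Complex.real_smul, div_eq_inv_mul]
  push_cast
  rfl

variable {ι : Type} [Fintype ι] [DecidableEq ι] {G : ι → Type} [∀ i, Group (G i)]
  [∀ i, TopologicalSpace (G i)] [∀ i, MeasurableSpace (G i)]
  {x : ∀ i, HeightOneSpectrum (𝓞 K) → G i} {μ : ∀ i, Measure (G i)}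

theorem joint_iff {S : Finset ι} : JointLaw x μ S ↔ LawS x μ S := by
  unfold JointLaw LawS
  simp only [avg_eq]
  rfl

theorem lfun_eq (R : ∀ i, Rp (G i)) (s : ℂ) : LFun (fun i => (R i).2) x s = LA (TM x R) s := rfl

end Bridge

/-- **Joint Sato-Tate laws from pairs.**  Let `K` be a number field, `G_i`, `i ∈ ι`, finitely many compact
groups with Haar probability measures `μ_i`, and `x_{i,v} ∈ G_i` for the primes `v` of `K`.

I.  Suppose that there are at least three indices and that each subfamily of all but one of the `x_i` is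
jointly equidistributed.  Let `π_i` be nontrivial continuous irreducible unitary representations of the
`G_i`, not all of dimension one, and `τ` a real number.  Then
`|log |L(⊗ π_i, 1 + iτ + ε)|| ≤ (1 - δ) log (1/ε)` for some `δ > 0` and all small `ε > 0`, and every
meromorphic continuation to a neighbourhood of `1 + iτ` has neither a zero nor a pole at `1 + iτ`.

II.  Suppose that each `x_i` is equidistributed and that each pair `x_i`, `x_j` is jointly equidistributed.
Suppose that for all families of continuous irreducible unitary representations `π_i` with at least three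
nontrivial members, not all of dimension one, `L(⊗ π_i, s)` has a meromorphic continuation to a
neighbourhood of every point of `Re s = 1`, and that the average of `∏ χ_{π_i}(x_{i,v})` is zero for all
families of continuous characters `π_i` of dimension one with at least three nontrivial members (for
groups without nontrivial characters of dimension one this is no condition).  Then the whole family is
jointly equidistributed. -/
theorem result (K : Type) [Field K] [NumberField K] (ι : Type) [Fintype ι] [DecidableEq ι]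
    (G : ι → Type) [∀ i, Group (G i)] [∀ i, TopologicalSpace (G i)]
    [∀ i, IsTopologicalGroup (G i)] [∀ i, CompactSpace (G i)] [∀ i, T2Space (G i)]
    [∀ i, MeasurableSpace (G i)] [∀ i, BorelSpace (G i)] (μ : ∀ i, Measure (G i))
    [∀ i, IsProbabilityMeasure (μ i)] [∀ i, (μ i).IsHaarMeasure]
    (x : ∀ i, HeightOneSpectrum (𝓞 K) → G i) :
    (3 ≤ Fintype.card ι → (∀ j, JointLaw x μ (Finset.univ.erase j)) →
      ∀ (n : ι → ℕ) (π : ∀ i, G i →* Matrix.unitaryGroup (Fin (n i)) ℂ) (τ : ℝ),
      (∀ i, IsIrreducible (π i)) → (∀ i, ∃ g, π i g ≠ 1) → (∃ i, n i ≠ 1) →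
      (∀ᶠ ε : ℝ in 𝓝[>] 0, LFun π x (1 + τ * Complex.I + ε) ≠ 0) ∧
      (∃ δ : ℝ, 0 < δ ∧ ∀ᶠ ε : ℝ in 𝓝[>] 0, |size π x τ ε| ≤ 1 - δ) ∧
      ∀ Λ, IsContinuation π x τ Λ → meromorphicOrderAt Λ (1 + τ * Complex.I) = (0 : ℤ)) ∧
    ((∀ i, JointLaw x μ {i}) → (∀ i j, i ≠ j → JointLaw x μ {i, j}) →
      (∀ (n : ι → ℕ) (π : ∀ i, G i →* Matrix.unitaryGroup (Fin (n i)) ℂ) (τ : ℝ),
        (∀ i, IsIrreducible (π i)) → ThreeNontrivial π → (∃ i, n i ≠ 1) →
        ∃ Λ, IsContinuation π x τ Λ) →
      (∀ (n : ι → ℕ) (π : ∀ i, G i →* Matrix.unitaryGroup (Fin (n i)) ℂ),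
        (∀ i, IsIrreducible (π i)) → ThreeNontrivial π → (∀ i, n i = 1) →
        Tendsto (avg fun v => ∏ i, tr (π i) (x i v)) atTop (𝓝 0)) →
      JointLaw x μ Finset.univ) := by
  classical
  refine ⟨fun hcard hlaw n π τ hirr hnt hbig => ?_, fun h1 h2 hM hH => ?_⟩
  · have hlaw' : ∀ T, T ⊂ (Finset.univ : Finset ι) →
        Pool.Agent.V1142.SC.Many.LawS x μ T := by
      intro T hT f hf
      obtain ⟨j, hj⟩ : ∃ j, j ∉ T := by
        by_contra hcon
        push Not at hcon
        exact hT.ne (Finset.eq_univ_iff_forall.2 hcon)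
      have h3 := joint_iff.1 (hlaw j) (fun i => if i ∈ T then f i else fun _ => 1) (fun i => by
        by_cases hi : i ∈ T
        · simp only [hi, if_true]
          exact hf i
        · simp only [hi, if_false]
          exact ⟨continuous_const, fun _ _ => rfl⟩)
      have hsub : T ⊆ Finset.univ.erase j := fun i hi =>
        Finset.mem_erase.2 ⟨fun h => hj (h ▸ hi), Finset.mem_univ i⟩
      have e1 : ∏ i ∈ Finset.univ.erase j,
          ∫ g, (if i ∈ T then f i else fun _ => 1) g ∂(μ i) = ∏ i ∈ T, ∫ g, f i g ∂(μ i) := by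
        rw [← Finset.prod_subset hsub fun i _ hi => by simp only [hi, if_false]; simp]
        exact Finset.prod_congr rfl fun i hi => by simp only [hi, if_true]
      rw [e1] at h3
      refine h3.congr fun N => ?_
      congr 1
      funext v
      rw [← Finset.prod_subset hsub fun i _ hi => by simp only [hi, if_false]]
      exact Finset.prod_congr rfl fun i hi => by simp only [hi, if_true]
    obtain ⟨k1, k2, k3⟩ := Pool.Agent.V1142.SC.Many.many_lt (x := x) (μ := μ)
      (S := Finset.univ) (by rw [Finset.card_univ]; exact hcard) hlaw'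
      (R := fun i => ⟨n i, π i⟩) (fun i => ⟨(hirr i).continuous, (hirr i).schur⟩)
      (fun i _ => Pool.Agent.V1142.SC.Many.ne_zero_of_nt (R := ⟨n i, π i⟩) (hnt i))
      (fun i hi => absurd (Finset.mem_univ i) hi)
      (by
        obtain ⟨i, hi⟩ := hbig
        exact ⟨i, Finset.mem_univ i, hi⟩) τ
    exact ⟨k1, k2, fun Λ hΛ => k3 Λ hΛ.1 hΛ.2⟩
  · rw [joint_iff]
    refine Pool.Agent.V1142.SC.Many.all_laws (fun i => joint_iff.1 (h1 i))
      (fun i j hij => joint_iff.1 (h2 i j hij)) (fun R hR h3 hb τ => ?_) (fun R hR h3 hd => ?_) _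
    · obtain ⟨Λ, hΛ⟩ := hM (fun i => (R i).1) (fun i => (R i).2) τ
        (fun i => ⟨(hR i).1, (hR i).2⟩) h3 hb
      exact ⟨Λ, hΛ.1, hΛ.2⟩
    · have := hH (fun i => (R i).1) (fun i => (R i).2) (fun i => ⟨(hR i).1, (hR i).2⟩) h3 hd
      rw [avg_eq] at this
      exact this

end Pool.Agent.Results.MP_c481b3_nt.PairwiseToJoint
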