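import Pool.Agent.TH553.ST.Joint
import Pool.Agent.TH553.ST.PW2

/-!
# The Sato-Tate conjecture for a product of two abelian varieties

In the intended use `A` and `A'` are abelian varieties over the number field `K`, of any dimensions,
`G` and `G'` are their Sato-Tate groups, and `x_v ∈ G`, `x'_v ∈ G'` are elements of the classes of the
prime `v` of `K` (any elements at the finitely many exceptional primes; this changes the
`L`-functions below by finitely many factors without zeros and poles in `Re s > 0`). If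
`G × G'` is the Sato-Tate group of `A × A'` then the conjecture for `A × A'` says that the pairs
`(x_v, x'_v)` are equidistributed in the classes of `G × G'`.

Suppose that the conjecture holds for `A` and for `A'`. The criterion of Serre for `A × A'`
asks for the continuation of the functions `L(π ⊗ π', s)` to `Re s ≥ 1` without zeros and poles, for all
nontrivial irreducible representations `π` of `G` and `π'` of `G'`. The theorem says:

* without any continuation, `|log |L(π ⊗ π', 1 + iτ + ε)||` is at most `(1 + o(1)) log (1 / ε)`, and at most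
  `(1 - δ) log (1 / ε)` if the absolute values of the characters of `π` and `π'` have different
  distributions, in particular if the dimensions are different;
* wherever there is a local meromorphic continuation there is at most a simple zero or pole, and a zero
  or pole forces `χ_π(x_v)` to be near to `± N(v)^{iτ}` times the complex conjugate of `χ_π'(x'_v)`
  for all primes `v` outside of a set of density zero;
* if all the `L(π ⊗ π', s)` have meromorphic continuations to neighbourhoods of the points of `Re s = 1`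
  then the pairs `(x_v, x'_v)` are equidistributed, or there are such `π`, `π'`, `τ`.
-/

set_option autoImplicit false

namespace Pool.Agent.Results.MP_c481b3_nt.ProductsOfVarieties

open NumberField IsDedekindDomain Filter Topology MeasureTheory
open scoped ComplexConjugate Kronecker

section

variable {K : Type} [Field K] [NumberField K]

/-- The average of `φ` over the primes of `K` of norm at most `N`. -/
noncomputable def avg (φ : HeightOneSpectrum (𝓞 K) → ℂ) (N : ℕ) : ℂ :=
  (∑ᶠ v : {v : HeightOneSpectrum (𝓞 K) // Ideal.absNorm v.asIdeal ≤ N}, φ v.1) /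
    (Nat.card {v : HeightOneSpectrum (𝓞 K) // Ideal.absNorm v.asIdeal ≤ N} : ℂ)

/-- The classes of the `x v` are equidistributed for `μ`. -/
def Equidistributed {G : Type} [Group G] [TopologicalSpace G] [MeasurableSpace G]
    (x : HeightOneSpectrum (𝓞 K) → G) (μ : Measure G) : Prop :=
  ∀ f : G → ℂ, Continuous f → (∀ g h, f (h * g * h⁻¹) = f g) →
    Tendsto (avg fun v => f (x v)) atTop (𝓝 (∫ g, f g ∂μ))

/-- The set `S` of primes of `K` has analytic density zero:
`∑_{v ∈ S} N(v)^{-1-ε} = o(log (1 / ε))`. -/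
def DensityZero (S : Set (HeightOneSpectrum (𝓞 K))) : Prop :=
  Tendsto (fun ε : ℝ => (∑' v : HeightOneSpectrum (𝓞 K), S.indicator (fun _ => (1 : ℝ)) v *
    (Ideal.absNorm v.asIdeal : ℝ) ^ (-(1 + ε))) / Real.log (1 / ε)) (𝓝[>] 0) (𝓝 0)

end

section

variable {G : Type} [Group G] {n : ℕ}

/-- The character of `π`. -/
noncomputable def tr (π : G →* Matrix.unitaryGroup (Fin n) ℂ) (g : G) : ℂ :=
  (π g : Matrix (Fin n) (Fin n) ℂ).trace

/-- The unitary representation `π` is continuous and irreducible: only the scalars commute with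
all matrices `π g`. -/
structure IsIrreducible [TopologicalSpace G] (π : G →* Matrix.unitaryGroup (Fin n) ℂ) : Prop where
  continuous : Continuous π
  schur : ∀ A : Matrix (Fin n) (Fin n) ℂ, (∀ g, (π g : Matrix (Fin n) (Fin n) ℂ) * A = A * π g) →
    ∃ c : ℂ, A = c • (1 : Matrix (Fin n) (Fin n) ℂ)

variable {G' : Type} [Group G'] {n' : ℕ}

/-- The absolute values of the characters of `π` and `π'` have the same distribution: all moments are
the same. -/
def SameLaw [MeasurableSpace G] [MeasurableSpace G'] (π : G →* Matrix.unitaryGroup (Fin n) ℂ)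
    (μ : Measure G) (π' : G' →* Matrix.unitaryGroup (Fin n') ℂ) (μ' : Measure G') : Prop :=
  ∀ k : ℕ, ∫ g, (‖tr π g‖ ^ 2) ^ k ∂μ = ∫ g, (‖tr π' g‖ ^ 2) ^ k ∂μ'

variable {K : Type} [Field K] [NumberField K]

/-- The Euler product `L(π ⊗ π', s) = ∏_v det(1 - N(v)^{-s} π(x_v) ⊗ π'(x'_v))⁻¹`. -/
noncomputable def LFun (π : G →* Matrix.unitaryGroup (Fin n) ℂ) (x : HeightOneSpectrum (𝓞 K) → G)
    (π' : G' →* Matrix.unitaryGroup (Fin n') ℂ) (x' : HeightOneSpectrum (𝓞 K) → G') (s : ℂ) : ℂ :=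
  ∏' v : HeightOneSpectrum (𝓞 K), (Matrix.det (1 - ((Ideal.absNorm v.asIdeal : ℂ) ^ (-s)) •
    ((π (x v) : Matrix (Fin n) (Fin n) ℂ) ⊗ₖ (π' (x' v) : Matrix (Fin n') (Fin n') ℂ))))⁻¹

/-- `log |L(π ⊗ π', 1 + iτ + ε)| / log (1/ε)`. -/
noncomputable def size (π : G →* Matrix.unitaryGroup (Fin n) ℂ) (x : HeightOneSpectrum (𝓞 K) → G)
    (π' : G' →* Matrix.unitaryGroup (Fin n') ℂ) (x' : HeightOneSpectrum (𝓞 K) → G') (τ ε : ℝ) : ℝ :=
  Real.log ‖LFun π x π' x' (1 + τ * Complex.I + ε)‖ / Real.log (1 / ε)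

/-- `Λ` is a meromorphic continuation of `L(π ⊗ π', s)` to a neighbourhood of `1 + iτ`. -/
def IsContinuation (π : G →* Matrix.unitaryGroup (Fin n) ℂ) (x : HeightOneSpectrum (𝓞 K) → G)
    (π' : G' →* Matrix.unitaryGroup (Fin n') ℂ) (x' : HeightOneSpectrum (𝓞 K) → G') (τ : ℝ)
    (Λ : ℂ → ℂ) : Prop :=
  MeromorphicAt Λ (1 + τ * Complex.I) ∧
    ∀ᶠ s in 𝓝 ((1 : ℂ) + τ * Complex.I), (1 : ℝ) < s.re → Λ s = LFun π x π' x' s

/-- `χ_π(x_v)` is near to `r N(v)^{iτ}` times the complex conjugate of `χ_π'(x'_v)` for almost all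
primes `v`. -/
def Linked (π : G →* Matrix.unitaryGroup (Fin n) ℂ) (x : HeightOneSpectrum (𝓞 K) → G)
    (π' : G' →* Matrix.unitaryGroup (Fin n') ℂ) (x' : HeightOneSpectrum (𝓞 K) → G') (τ r : ℝ) :
    Prop :=
  ∀ δ : ℝ, 0 < δ → DensityZero {v | δ < ‖tr π (x v) -
    r * conj (tr π' (x' v) * (Ideal.absNorm v.asIdeal : ℂ) ^ (-(τ * Complex.I)))‖}

end

section Bridge

set_option linter.unusedSectionVars false

open Pool.Agent.TH553.ST Pool.Agent.TH553.RS Pool.Agent.W540.BE

variable {K : Type} [Field K] [NumberField K]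

theorem avg_eq (g : HeightOneSpectrum (𝓞 K) → ℂ) : avg g = mn g := by
  funext N
  have hs : ∀ v, v ∈ upto K N ↔ Ideal.absNorm v.asIdeal ≤ N := fun v => mem_upto
  let e : {v : HeightOneSpectrum (𝓞 K) // Ideal.absNorm v.asIdeal ≤ N} ≃ (upto K N) :=
    Equiv.subtypeEquivRight fun v => (hs v).symm
  have hfin : Finite {v : HeightOneSpectrum (𝓞 K) // Ideal.absNorm v.asIdeal ≤ N} :=
    Finite.of_equiv _ e.symm
  unfold avg mn
  have h1 : (∑ᶠ v : {v : HeightOneSpectrum (𝓞 K) // Ideal.absNorm v.asIdeal ≤ N}, g v.1) =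
      ∑ v ∈ upto K N, g v := by
    rw [← Finset.sum_coe_sort, ← finsum_eq_sum_of_fintype, ← finsum_comp_equiv e]
    rfl
  have h2 : Nat.card {v : HeightOneSpectrum (𝓞 K) // Ideal.absNorm v.asIdeal ≤ N} =
      (upto K N).card := by
    rw [Nat.card_congr e, Nat.card_eq_fintype_card, Fintype.card_coe]
  rw [h1, h2, Complex.real_smul, div_eq_inv_mul]
  push_cast
  rfl

variable {G : Type} [Group G] [TopologicalSpace G] [IsTopologicalGroup G] [CompactSpace G]
  [T2Space G] [MeasurableSpace G] [BorelSpace G] {μ : Measure G} [IsProbabilityMeasure μ]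
  [μ.IsHaarMeasure] {n : ℕ} {π : G →* Matrix.unitaryGroup (Fin n) ℂ}
  {x : HeightOneSpectrum (𝓞 K) → G}
variable {G' : Type} [Group G'] [TopologicalSpace G'] [IsTopologicalGroup G'] [CompactSpace G']
  [T2Space G'] [MeasurableSpace G'] [BorelSpace G'] {μ' : Measure G'} [IsProbabilityMeasure μ']
  [μ'.IsHaarMeasure] {n' : ℕ} {π' : G' →* Matrix.unitaryGroup (Fin n') ℂ}
  {x' : HeightOneSpectrum (𝓞 K) → G'}

theorem law_of (h : Equidistributed x μ) : Law x μ := by
  intro f hf hcl
  have h1 := h (fun g => (f g : ℂ)) (Complex.continuous_ofReal.comp hf) fun g h => by rw [hcl]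
  have h0 : ∫ g, (f g : ℂ) ∂μ = ((∫ g, f g ∂μ : ℝ) : ℂ) := integral_ofReal
  rw [avg_eq, h0] at h1
  have h2 := (Complex.continuous_re.tendsto _).comp h1
  refine h2.congr fun N => ?_
  simp only [Function.comp]
  rw [re_mn]
  rfl

/-- the dimension is determined by the moments -/
theorem dim_le (hc : Continuous π) (hc' : Continuous π') (h : SameLaw π μ π' μ') : n' ≤ n := by
  by_contra hcon
  push Not at hcon
  -- the set where the character of `π'` is large
  set c : ℝ := ((n : ℝ) ^ 2 + (n' : ℝ) ^ 2) / 2 with hcdef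
  have hn0 : (0 : ℝ) ≤ n := Nat.cast_nonneg n
  have hlt : (n : ℝ) < n' := by exact_mod_cast hcon
  have hn1 : (n : ℝ) ^ 2 < (n' : ℝ) ^ 2 := pow_lt_pow_left₀ hlt hn0 two_ne_zero
  have hc1 : (n : ℝ) ^ 2 < c := by rw [hcdef]; linarith
  have hc2 : c < (n' : ℝ) ^ 2 := by rw [hcdef]; linarith
  have hc0 : 0 < c := lt_of_le_of_lt (sq_nonneg _) hc1
  have hcont' : Continuous fun g => ‖tr π' g‖ ^ 2 := (cont_chi hc').norm.pow 2
  have hcont : Continuous fun g => ‖tr π g‖ ^ 2 := (cont_chi hc).norm.pow 2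
  set U : Set G' := {g | c < ‖tr π' g‖ ^ 2} with hU
  have hUo : IsOpen U := isOpen_lt continuous_const hcont'
  have h1U : (1 : G') ∈ U := by
    change c < ‖tr π' 1‖ ^ 2
    have : tr π' 1 = n' := chi_one π'
    rw [this]
    simpa using hc2
  have hUpos : 0 < μ'.real U := by
    rw [Measure.real, ENNReal.toReal_pos_iff]
    exact ⟨hUo.measure_pos μ' ⟨1, h1U⟩, measure_lt_top μ' U⟩
  -- the inequality for all `k`
  have key : ∀ k : ℕ, μ'.real U * c ^ k ≤ ((n : ℝ) ^ 2) ^ k := by
    intro k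
    have h1 : ∫ g, (‖tr π g‖ ^ 2) ^ k ∂μ ≤ ((n : ℝ) ^ 2) ^ k := by
      have h2 : ∫ g, (‖tr π g‖ ^ 2) ^ k ∂μ ≤ ∫ _, ((n : ℝ) ^ 2) ^ k ∂μ := by
        refine integral_mono (intg (hcont.pow k)) (integrable_const _) fun g => ?_
        exact pow_le_pow_left₀ (sq_nonneg _)
          (pow_le_pow_left₀ (norm_nonneg _) (norm_chi π g) 2) k
      simpa using h2
    have h2 : μ'.real U * c ^ k ≤ ∫ g, (‖tr π' g‖ ^ 2) ^ k ∂μ' := by
      have h3 : ∫ g, U.indicator (fun _ => c ^ k) g ∂μ' ≤ ∫ g, (‖tr π' g‖ ^ 2) ^ k ∂μ' := by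
        refine integral_mono ((integrable_const _).indicator hUo.measurableSet)
          (intg (hcont'.pow k)) fun g => ?_
        by_cases hg : g ∈ U
        · rw [Set.indicator_of_mem hg]
          exact pow_le_pow_left₀ hc0.le (le_of_lt hg) k
        · rw [Set.indicator_of_notMem hg]
          positivity
      rw [integral_indicator hUo.measurableSet, setIntegral_const, smul_eq_mul] at h3
      exact h3
    rw [← h k] at h2
    exact h2.trans h1
  have hq : (n : ℝ) ^ 2 / c < 1 := (div_lt_one hc0).2 hc1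
  have hq0 : 0 ≤ (n : ℝ) ^ 2 / c := by positivity
  have hlim := tendsto_pow_atTop_nhds_zero_of_lt_one hq0 hq
  have h5 : ∀ k : ℕ, μ'.real U ≤ ((n : ℝ) ^ 2 / c) ^ k := by
    intro k
    rw [div_pow, le_div_iff₀ (by positivity)]
    exact key k
  have h6 : μ'.real U ≤ 0 := ge_of_tendsto' hlim h5
  linarith

theorem SameLaw.symm (h : SameLaw π μ π' μ') : SameLaw π' μ' π μ := fun k => (h k).symm

/-- the average for a pair without zeros and poles -/
theorem avg_pair
    (hcont : ∀ τ : ℝ, ∃ Λ : ℂ → ℂ, MeromorphicAt Λ (1 + τ * Complex.I) ∧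
      (∀ᶠ s in 𝓝 ((1 : ℂ) + τ * Complex.I), (1 : ℝ) < s.re → Λ s = LP π x π' x' s) ∧
      meromorphicOrderAt Λ (1 + τ * Complex.I) = (0 : ℤ)) :
    Tendsto (mn fun v => chi π (x v) * chi π' (x' v)) atTop (𝓝 0) := by
  obtain ⟨α, h1, h2, h3⟩ := exists_al π x π' x'
  have h4 := taub h1 (L := LP π x π' x') (fun s _ => by
    unfold LP
    exact tprod_congr fun v => by rw [h3]) (fun τ => by
    obtain ⟨Λ, h5, h6, h7⟩ := hcont τ
    obtain ⟨g, h10, h11, h12⟩ := (meromorphicOrderAt_eq_int_iff h5).1 h7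
    refine ⟨g, h10, h11, ?_⟩
    rw [eventually_nhdsWithin_iff] at h12
    filter_upwards [h12, h6] with s h13 h14 h15
    have hne : s ≠ 1 + τ * Complex.I := by
      intro h
      rw [h] at h15
      simp at h15
    have h16 := h13 hne
    rw [zpow_zero, one_smul] at h16
    rw [← h16, h14 h15])
  refine h4.congr fun N => ?_
  congr 1
  funext v
  exact h2 v

/-- products of characters -/
theorem chi_pair (hx : Law x μ) (hx' : Law x' μ') (hc : Continuous π) (hs : Schur π)
    (hc' : Continuous π') (hs' : Schur π')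
    (hd : (∃ g, π g ≠ 1) → (∃ g, π' g ≠ 1) →
      Tendsto (mn fun v => chi π (x v) * chi π' (x' v)) atTop (𝓝 0)) :
    Tendsto (mn fun v => chi π (x v) * chi π' (x' v)) atTop
      (𝓝 ((∫ g, chi π g ∂μ) * ∫ g, chi π' g ∂μ')) := by
  by_cases h1 : ∃ g, π g ≠ 1
  · by_cases h2 : ∃ g, π' g ≠ 1
    · rw [int_chi hc hs h1, zero_mul]
      exact hd h1 h2
    · push Not at h2
      have h3 := (law_c hx (cont_chi hc) (fun g h => chi_cls π g h)).const_mul (n' : ℂ)
      have h4 : ∫ g, chi π' g ∂μ' = n' := by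
        simp only [chi_triv h2]
        simp
      rw [h4, mul_comm]
      refine h3.congr fun N => ?_
      rw [← mn_mul]
      congr 1
      funext v
      rw [chi_triv h2, mul_comm]
  · push Not at h1
    have h3 := (law_c hx' (cont_chi hc') (fun g h => chi_cls π' g h)).const_mul (n : ℂ)
    have h4 : ∫ g, chi π g ∂μ = n := by
      simp only [chi_triv h1]
      simp
    rw [h4]
    refine h3.congr fun N => ?_
    rw [← mn_mul]
    congr 1
    funext v
    rw [chi_triv h1]

/-- joint equidistribution from the averages of the products of characters -/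
theorem joint_of [SecondCountableTopology G] [SecondCountableTopology G']
    (hx : Law x μ) (hx' : Law x' μ')
    (hpair : ∀ (n n' : ℕ) (π : G →* Matrix.unitaryGroup (Fin n) ℂ)
      (π' : G' →* Matrix.unitaryGroup (Fin n') ℂ), Continuous π → Schur π → Continuous π' →
      Schur π' → (∃ g, π g ≠ 1) → (∃ g, π' g ≠ 1) →
      Tendsto (mn fun v => chi π (x v) * chi π' (x' v)) atTop (𝓝 0))
    {f : G × G' → ℂ} (hf : Continuous f) (hcl : ∀ p q, f (q * p * q⁻¹) = f p) :
    Tendsto (mn fun v => f (x v, x' v)) atTop (𝓝 (∫ p, f p ∂(μ.prod μ'))) := by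
  refine mn_unif fun ε hε => ?_
  obtain ⟨k, m, m', ρ, ρ', a, h1, h2, h4⟩ := class_dense2 hf
    (fun g g' k k' => hcl (g, g') (k, k')) hε
  refine ⟨fun v => ∑ i, a i * (chi (ρ i) (x v) * chi (ρ' i) (x' v)),
    ∑ i, a i * ((∫ g, chi (ρ i) g ∂μ) * ∫ g, chi (ρ' i) g ∂μ'), fun v => h4 _ _, ?_, ?_⟩
  · have hci : ∀ i, Continuous fun p : G × G' => a i * (chi (ρ i) p.1 * chi (ρ' i) p.2) :=
      fun i => continuous_const.mul (((cont_chi (h1 i).1).comp continuous_fst).mul
        ((cont_chi (h2 i).1).comp continuous_snd))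
    have hFc : Continuous fun p : G × G' => ∑ i, a i * (chi (ρ i) p.1 * chi (ρ' i) p.2) :=
      continuous_finsetSum _ fun i _ => hci i
    have hI : ∀ F : G × G' → ℂ, Continuous F → Integrable F (μ.prod μ') := fun F hF =>
      hF.integrable_of_hasCompactSupport (HasCompactSupport.of_compactSpace F)
    have h5 : ∫ p, (∑ i, a i * (chi (ρ i) p.1 * chi (ρ' i) p.2)) ∂(μ.prod μ') =
        ∑ i, a i * ((∫ g, chi (ρ i) g ∂μ) * ∫ g, chi (ρ' i) g ∂μ') := by
      rw [integral_finsetSum _ fun i _ => hI _ (hci i)]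
      refine Finset.sum_congr rfl fun i _ => ?_
      rw [integral_const_mul, integral_prod_mul]
    rw [← h5, ← integral_sub (hI _ hFc) (hI _ hf)]
    refine (norm_integral_le_integral_norm _).trans ?_
    have h6 : ∫ p, ‖(∑ i, a i * (chi (ρ i) p.1 * chi (ρ' i) p.2)) - f p‖ ∂(μ.prod μ') ≤
        ∫ _, ε ∂(μ.prod μ') := by
      refine integral_mono (hI _ hFc |>.sub (hI _ hf)).norm (integrable_const _) fun p => ?_
      simp only
      rw [norm_sub_rev]
      exact h4 p.1 p.2
    simpa using h6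
  · have h5 : Tendsto (fun N => ∑ i, a i * mn (fun v => chi (ρ i) (x v) * chi (ρ' i) (x' v)) N)
        atTop (𝓝 (∑ i, a i * ((∫ g, chi (ρ i) g ∂μ) * ∫ g, chi (ρ' i) g ∂μ'))) :=
      tendsto_finsetSum _ fun i _ => (chi_pair hx hx' (h1 i).1 (h1 i).2 (h2 i).1 (h2 i).2
        (hpair _ _ _ _ (h1 i).1 (h1 i).2 (h2 i).1 (h2 i).2)).const_mul _
    refine h5.congr fun N => ?_
    rw [mn_sum]
    exact Finset.sum_congr rfl fun i _ => (mn_mul _ _ _).symm

/-- the exceptional case -/
theorem linked_of (hx : Law x μ) (hx' : Law x' μ') (hc : Continuous π) (hs : Schur π)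
    (hc' : Continuous π') (hs' : Schur π') {τ : ℝ} {m : ℤ}
    (hm : Tendsto (sz π x π' x' τ) (𝓝[>] 0) (𝓝 (-(m : ℝ)))) (hm0 : m ≠ 0) :
    (m = 1 ∨ m = -1) ∧ SameLaw π μ π' μ' ∧ Linked π x π' x' τ (-(m : ℝ)) := by
  obtain ⟨h1, h2, h3⟩ := pair_rigid hx hx' hc hs hc' hs' hm hm0
  refine ⟨?_, h2, fun δ hδ => ?_⟩
  · rcases abs_cases m with ⟨h, -⟩ | ⟨h, -⟩
    · exact Or.inl (by omega)
    · exact Or.inr (by omega)
  · have h4 := h3 δ hδ
    unfold DensityZero
    unfold EP at h4
    refine h4.congr fun ε => ?_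
    congr 1
    refine tsum_congr fun v => ?_
    have hset : ({v | δ < ‖df (-(m : ℝ)) (tc π x 0) (tc π' x' τ) v‖} : Set _) =
        {v | δ < ‖tr π (x v) - ((-(m : ℝ) : ℝ) : ℂ) * conj (tr π' (x' v) *
          (Ideal.absNorm v.asIdeal : ℂ) ^ (-(τ * Complex.I)))‖} := by
      ext w
      simp only [Set.mem_ofPred_eq]
      unfold df tc
      simp only [Complex.ofReal_zero, zero_mul, neg_zero, Complex.cpow_zero, mul_one]
      rfl
    rw [hset]
    rfl

end Bridge

/-- **Sato-Tate laws for products.** Let `K` be a number field, `G` and `G'` compact groups with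
Haar probability measures `μ`, `μ'`, and `x_v ∈ G`, `x'_v ∈ G'` for the primes `v` of `K`, such that the
classes of the `x_v` and the classes of the `x'_v` are equidistributed.

I. For all continuous irreducible unitary representations `π` of `G` and `π'` of `G'` and all real `τ`,
the number `X(ε) = log |L(π ⊗ π', 1 + iτ + ε)| / log (1/ε)` satisfies `|X(ε)| ≤ 1 + η` for all `η > 0` and all
small `ε > 0`, and `|X(ε)| ≤ 1 - δ` for some `δ > 0` if the laws of `|χ_π|` and `|χ_π'|` are
different; they are different if the dimensions are different. If there is a meromorphic continuation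
to a neighbourhood of `1 + iτ` then its order `m` at this point is `0`, or `1`, or `-1`, and in the last
two cases `|χ_π|` and `|χ_π'|` have the same law, and `χ_π(x_v)` is near to `- m N(v)^{iτ}` times the
complex conjugate of `χ_π'(x'_v)` for almost all primes `v`.

II. If for all nontrivial irreducible `π`, `π'` and all `τ` there is a meromorphic continuation of
`L(π ⊗ π', s)` to a neighbourhood of `1 + iτ`, then either the classes of the pairs `(x_v, x'_v)` are
equidistributed in `G × G'`, or there are nontrivial irreducible `π`, `π'` of the same dimension and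
with the same law, a real `τ` and a sign `r` such that `χ_π(x_v)` is near to `r N(v)^{iτ}` times the
complex conjugate of `χ_π'(x'_v)` for almost all primes `v`. -/
theorem result (K : Type) [Field K] [NumberField K]
    (G : Type) [Group G] [TopologicalSpace G] [IsTopologicalGroup G] [CompactSpace G] [T2Space G]
    [SecondCountableTopology G] [MeasurableSpace G] [BorelSpace G] (μ : Measure G)
    [IsProbabilityMeasure μ] [μ.IsHaarMeasure]
    (G' : Type) [Group G'] [TopologicalSpace G'] [IsTopologicalGroup G'] [CompactSpace G']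
    [T2Space G'] [SecondCountableTopology G'] [MeasurableSpace G'] [BorelSpace G']
    (μ' : Measure G') [IsProbabilityMeasure μ'] [μ'.IsHaarMeasure]
    (x : HeightOneSpectrum (𝓞 K) → G) (hx : Equidistributed x μ)
    (x' : HeightOneSpectrum (𝓞 K) → G') (hx' : Equidistributed x' μ') :
    (∀ (n n' : ℕ) (π : G →* Matrix.unitaryGroup (Fin n) ℂ)
      (π' : G' →* Matrix.unitaryGroup (Fin n') ℂ) (τ : ℝ), IsIrreducible π → IsIrreducible π' →
      (∀ᶠ ε : ℝ in 𝓝[>] 0, LFun π x π' x' (1 + τ * Complex.I + ε) ≠ 0) ∧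
      (∀ η : ℝ, 0 < η → ∀ᶠ ε : ℝ in 𝓝[>] 0, |size π x π' x' τ ε| ≤ 1 + η) ∧
      (¬ SameLaw π μ π' μ' → ∃ δ : ℝ, 0 < δ ∧ ∀ᶠ ε : ℝ in 𝓝[>] 0, |size π x π' x' τ ε| ≤ 1 - δ) ∧
      (n ≠ n' → ¬ SameLaw π μ π' μ') ∧
      ∀ Λ, IsContinuation π x π' x' τ Λ → ∃ m : ℤ,
        meromorphicOrderAt Λ (1 + τ * Complex.I) = m ∧
        (m = 0 ∨ (m = 1 ∨ m = -1) ∧ SameLaw π μ π' μ' ∧ Linked π x π' x' τ (-(m : ℝ)))) ∧
    ((∀ (n n' : ℕ) (π : G →* Matrix.unitaryGroup (Fin n) ℂ)
      (π' : G' →* Matrix.unitaryGroup (Fin n') ℂ) (τ : ℝ), IsIrreducible π → IsIrreducible π' →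
      (∃ g, π g ≠ 1) → (∃ g, π' g ≠ 1) → ∃ Λ, IsContinuation π x π' x' τ Λ) →
      Equidistributed (fun v => (x v, x' v)) (μ.prod μ') ∨
      ∃ (n : ℕ) (π : G →* Matrix.unitaryGroup (Fin n) ℂ)
        (π' : G' →* Matrix.unitaryGroup (Fin n) ℂ) (τ r : ℝ), IsIrreducible π ∧ IsIrreducible π' ∧
        (∃ g, π g ≠ 1) ∧ (∃ g, π' g ≠ 1) ∧ (r = 1 ∨ r = -1) ∧ SameLaw π μ π' μ' ∧
        Linked π x π' x' τ r) := by
  have L := law_of hx
  have L' := law_of hx'
  refine ⟨fun n n' π π' τ h h' => ⟨?_, ?_, ?_, ?_, ?_⟩, fun hcont => ?_⟩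
  · exact (Pool.Agent.TH553.ST.size_LP π x π' x' τ).1
  · exact fun η hη => Pool.Agent.TH553.ST.pair_le L L' h.1 h.2 h'.1 h'.2 τ hη
  · exact fun hd => Pool.Agent.TH553.ST.pair_lt L L' h.1 h.2 h'.1 h'.2 hd τ
  · exact fun hne hsame => hne (le_antisymm (dim_le h'.1 h.1 hsame.symm) (dim_le h.1 h'.1 hsame))
  · intro Λ hΛ
    obtain ⟨m, hm1, hm2⟩ := Pool.Agent.TH553.ST.order_LP hΛ.1 hΛ.2
    refine ⟨m, hm1, ?_⟩
    by_cases hm0 : m = 0
    · exact Or.inl hm0
    · exact Or.inr (linked_of L L' h.1 h.2 h'.1 h'.2 hm2 hm0)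
  · by_contra hcon
    push Not at hcon
    obtain ⟨hE, hno⟩ := hcon
    refine hE fun f hf hcl => ?_
    rw [avg_eq]
    refine joint_of L L' (fun n n' π π' h1 h2 h3 h4 h5 h6 => avg_pair fun τ => ?_) hf hcl
    have hi : IsIrreducible π := ⟨h1, h2⟩
    have hi' : IsIrreducible π' := ⟨h3, h4⟩
    obtain ⟨Λ, hΛ⟩ := hcont n n' π π' τ hi hi' h5 h6
    refine ⟨Λ, hΛ.1, hΛ.2, ?_⟩
    obtain ⟨m, hm1, hm2⟩ := Pool.Agent.TH553.ST.order_LP hΛ.1 hΛ.2
    by_cases hm0 : m = 0
    · rw [hm1, hm0]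
    · exfalso
      obtain ⟨k1, k2, k3⟩ := linked_of L L' h1 h2 h3 h4 hm2 hm0
      have hdim : n = n' := le_antisymm (dim_le h3 h1 k2.symm) (dim_le h1 h3 k2)
      subst hdim
      refine hno n π π' τ (-(m : ℝ)) hi hi' h5 h6 ?_ k2 k3
      rcases k1 with k | k
      · right; rw [k]; norm_num
      · left; rw [k]; norm_num

end Pool.Agent.Results.MP_c481b3_nt.ProductsOfVarieties
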